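import Mathlib

/-! Lemma U (pairs lemma) of the `MP_1fe246_co` project (helper89's lemma; module PU1). -/

namespace H2.MW

/-- `w` occurs in `x` at position `t` (only the first `n` letters of `w` count). -/
def Occ {E : Type*} (n : ℕ) (x w : ℕ → E) (t : ℕ) : Prop := ∀ i, i < n → x (t + i) = w i

/-- the suffix of length `n - b` of `w` has period `q` -/
def PerSuf {E : Type*} (n b : ℕ) (w : ℕ → E) (q : ℕ) : Prop :=
  ∀ i, b ≤ i → i + q < n → w i = w (i + q)

/-- type A : two occurrences breaking the periods cannot be close -/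
lemma typeA_sep {E : Type*} {n b : ℕ} (hn : 6 * b ≤ n) {x w1 w2 : ℕ → E}
    {t1 t2 q1 q2 : ℕ} (h1 : Occ n x w1 t1) (h2 : Occ n x w2 t2)
    (p1 : PerSuf n b w1 q1) (p2 : PerSuf n b w2 q2)
    (hq1 : 1 ≤ q1) (hq1' : q1 ≤ 2 * b) (hq2 : 1 ≤ q2) (hq2' : q2 ≤ 2 * b)
    (br1 : x (t1 + n) ≠ w1 (n - q1)) (h12 : t1 < t2) (hb : t2 < t1 + b) : False := by
  apply br1
  -- x (t1+n) = w2 (t1+n-t2)
  have e1 : x (t1 + n) = w2 (t1 + n - t2) := by
    have := h2 (t1 + n - t2) (by omega)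
    rw [← this]; congr 1; omega
  have e2 : w2 (t1 + n - t2 - q2) = w2 (t1 + n - t2) := by
    have := p2 (t1 + n - t2 - q2) (by omega) (by omega)
    rw [this]; congr 1; omega
  have e3 : x (t1 + n - q2) = w2 (t1 + n - t2 - q2) := by
    have := h2 (t1 + n - t2 - q2) (by omega)
    rw [← this]; congr 1; omega
  have e4 : x (t1 + n - q2) = w1 (n - q2) := by
    have := h1 (n - q2) (by omega)
    rw [← this]; congr 1; omega
  have e5 : w1 (n - q2 - q1) = w1 (n - q2) := by
    have := p1 (n - q2 - q1) (by omega) (by omega)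
    rw [this]; congr 1; omega
  have e6 : x (t1 + n - q2 - q1) = w1 (n - q2 - q1) := by
    have := h1 (n - q2 - q1) (by omega)
    rw [← this]; congr 1; omega
  have e7 : x (t1 + n - q2 - q1) = w2 (t1 + n - t2 - q2 - q1) := by
    have := h2 (t1 + n - t2 - q2 - q1) (by omega)
    rw [← this]; congr 1; omega
  have e8 : w2 (t1 + n - t2 - q2 - q1) = w2 (t1 + n - t2 - q1) := by
    have := p2 (t1 + n - t2 - q2 - q1) (by omega) (by omega)
    rw [this]; congr 1; omega
  have e9 : x (t1 + n - q1) = w2 (t1 + n - t2 - q1) := by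
    have := h2 (t1 + n - t2 - q1) (by omega)
    rw [← this]; congr 1; omega
  have e10 : x (t1 + n - q1) = w1 (n - q1) := by
    have := h1 (n - q1) (by omega)
    rw [← this]; congr 1; omega
  rw [e1, ← e2, ← e3, e4, ← e5, ← e6, e7, e8, ← e9, e10]

/-- type B : two close pairs of occurrences give a period or agree on the next letter -/
lemma typeB_sep {E : Type*} {n b : ℕ} (hn : 6 * b ≤ n) {x y w1 w2 : ℕ → E}
    {t1 t2 s1 s2 : ℕ} (h1 : Occ n x w1 t1) (h2 : Occ n x w2 t2)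
    (k1 : Occ n y w1 s1) (k2 : Occ n y w2 s2)
    (hne : x (t1 + n) ≠ y (s1 + n)) (hA : ∀ q, 1 ≤ q → q ≤ 2 * b → ¬ PerSuf n b w1 q)
    (h12 : t1 < t2) (hb : t2 < t1 + b) (hs : s2 < s1 + b) (hs' : s1 < s2 + b) : False := by
  rcases lt_trichotomy (t2 + s1) (t1 + s2) with hlt | heq | hgt
  · -- t2 - t1 < s2 - s1
    refine hA (t1 + s2 - (t2 + s1)) (by omega) (by omega) ?_
    intro i hi hin
    have a1 : w1 i = w2 (i + t1 - t2) := by
      have := h1 i (by omega)
      have h3 := h2 (i + t1 - t2) (by omega)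
      rw [← this, ← h3]; congr 1; omega
    have a2 : w1 (i + (t1 + s2 - (t2 + s1))) = w2 (i + t1 - t2) := by
      have := k1 (i + (t1 + s2 - (t2 + s1))) (by omega)
      have h3 := k2 (i + t1 - t2) (by omega)
      rw [← this, ← h3]; congr 1; omega
    rw [a1, a2]
  · apply hne
    have a1 := h2 (t1 + n - t2) (by omega)
    have a2 := k2 (t1 + n - t2) (by omega)
    have b1 : t2 + (t1 + n - t2) = t1 + n := by omega
    have b2 : s2 + (t1 + n - t2) = s1 + n := by omega
    rw [b1] at a1; rw [b2] at a2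
    rw [a1, a2]
  · refine hA ((t2 + s1) - (t1 + s2)) (by omega) (by omega) ?_
    intro i hi hin
    have a1 : w1 i = w2 (i + s1 - s2) := by
      have := k1 i (by omega)
      have h3 := k2 (i + s1 - s2) (by omega)
      rw [← this, ← h3]; congr 1; omega
    have a2 : w1 (i + ((t2 + s1) - (t1 + s2))) = w2 (i + s1 - s2) := by
      have := h1 (i + ((t2 + s1) - (t1 + s2))) (by omega)
      have h3 := h2 (i + s1 - s2) (by omega)
      rw [← this, ← h3]; congr 1; omega
    rw [a1, a2]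

lemma getElem?_of_infix {A : Type*} {w X : List A} {a : A} (h : (w ++ [a]) <:+: X) :
    ∃ t, t + w.length < X.length ∧ (∀ i, i < w.length → X[t + i]? = w[i]?) ∧
      X[t + w.length]? = some a := by
  obtain ⟨s, u, rfl⟩ := h
  refine ⟨s.length, by simp, ?_, ?_⟩
  · intro i hi
    rw [List.getElem?_append_left (by simp; omega), List.getElem?_append_right (by omega),
      List.getElem?_append_left (by simp; omega)]
    congr 1; omega
  · rw [List.getElem?_append_left (by simp), List.getElem?_append_right (by omega)]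
    simp

lemma list_eq_of_occ {A : Type*} {n : ℕ} {w1 w2 : List A} (l1 : w1.length = n)
    (l2 : w2.length = n) {x : ℕ → Option A} {t : ℕ}
    (h1 : ∀ i, i < n → x (t + i) = w1[i]?) (h2 : ∀ i, i < n → x (t + i) = w2[i]?) : w1 = w2 := by
  apply List.ext_getElem? 
  intro i
  by_cases hi : i < n
  · rw [← h1 i hi, ← h2 i hi]
  · rw [List.getElem?_eq_none (by omega), List.getElem?_eq_none (by omega)]

lemma ncard_le_of_key {α : Type*} {N : ℕ} (S : Set α) (P : α → ℕ → Prop)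
    (hex : ∀ w ∈ S, ∃ k, k < N ∧ P w k)
    (hinj : ∀ w1 ∈ S, ∀ w2 ∈ S, ∀ k, P w1 k → P w2 k → w1 = w2) : S.Finite ∧ S.ncard ≤ N := by
  classical
  choose! f hf using hex
  have hinj' : Set.InjOn f S := fun a ha b hb h => hinj a ha b hb (f a) (hf a ha).2
    (by rw [h]; exact (hf b hb).2)
  have himg : f '' S ⊆ (Finset.range N : Set ℕ) := by
    rintro _ ⟨a, ha, rfl⟩
    simpa using (hf a ha).1
  have hfin : (f '' S).Finite := (Finset.finite_toSet _).subset himg
  refine ⟨Set.Finite.of_finite_image hfin hinj', ?_⟩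
  rw [← Set.InjOn.ncard_image hinj']
  calc (f '' S).ncard ≤ ((Finset.range N : Finset ℕ) : Set ℕ).ncard :=
        Set.ncard_le_ncard himg (Finset.finite_toSet _)
    _ = N := by rw [Set.ncard_coe_finset, Finset.card_range]

/-- the set of length-`n` words with two different right extensions, one in `X`, one in `Y` -/
def PairSet {A : Type*} (n : ℕ) (X Y : List A) : Set (List A) :=
  {w | w.length = n ∧ ∃ a b, a ≠ b ∧ (w ++ [a]) <:+: X ∧ (w ++ [b]) <:+: Y}

lemma typeA_count {A : Type*} (n b N : ℕ) (hb : 1 ≤ b) (hn : 6 * b ≤ n) (X : List A)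
    (hX : X.length ≤ b * N) :
    let S : Set (List A) := {w | w.length = n ∧ ∃ q t, 1 ≤ q ∧ q ≤ 2 * b ∧
      PerSuf n b (fun i => w[i]?) q ∧ t + n < X.length ∧ (∀ i, i < n → X[t + i]? = w[i]?) ∧
      X[t + n]? ≠ w[n - q]?}
    S.Finite ∧ S.ncard ≤ N := by
  intro S
  refine ncard_le_of_key S (fun w k => ∃ q t, 1 ≤ q ∧ q ≤ 2 * b ∧
      PerSuf n b (fun i => w[i]?) q ∧ t + n < X.length ∧ (∀ i, i < n → X[t + i]? = w[i]?) ∧
      X[t + n]? ≠ w[n - q]? ∧ t / b = k) ?_ ?_
  · rintro w ⟨-, q, t, h1, h2, h3, h4, h5, h6⟩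
    refine ⟨t / b, ?_, q, t, h1, h2, h3, h4, h5, h6, rfl⟩
    rw [Nat.div_lt_iff_lt_mul (by omega)]
    calc t < X.length := by omega
      _ ≤ b * N := hX
      _ = N * b := Nat.mul_comm _ _
  · rintro w1 ⟨l1, -⟩ w2 ⟨l2, -⟩ k ⟨q1, t1, a1, a2, a3, a4, a5, a6, a7⟩
      ⟨q2, t2, c1, c2, c3, c4, c5, c6, c7⟩
    have m1 := Nat.div_add_mod t1 b
    have m2 := Nat.div_add_mod t2 b
    have r1 := Nat.mod_lt t1 (show 0 < b by omega)
    have r2 := Nat.mod_lt t2 (show 0 < b by omega)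
    rw [a7] at m1; rw [c7] at m2
    rcases lt_trichotomy t1 t2 with h | h | h
    · exact (typeA_sep (x := fun i => X[i]?) (w1 := fun i => w1[i]?) (w2 := fun i => w2[i]?)
        hn a5 c5 a3 c3 a1 a2 c1 c2 a6 h (by omega)).elim
    · subst h
      exact list_eq_of_occ (x := fun i => X[i]?) l1 l2 a5 c5
    · exact (typeA_sep (x := fun i => X[i]?) (w1 := fun i => w2[i]?) (w2 := fun i => w1[i]?)
        hn c5 a5 c3 a3 c1 c2 a1 a2 c6 h (by omega)).elim

lemma typeB_count {A : Type*} (n b N : ℕ) (hb : 1 ≤ b) (hn : 6 * b ≤ n) (X Y : List A)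
    (hX : X.length ≤ b * N) (hY : Y.length ≤ b * N) :
    let S : Set (List A) := {w | w.length = n ∧ (∀ q, 1 ≤ q → q ≤ 2 * b →
      ¬ PerSuf n b (fun i => w[i]?) q) ∧ ∃ t s, t + n < X.length ∧ s + n < Y.length ∧
      (∀ i, i < n → X[t + i]? = w[i]?) ∧ (∀ i, i < n → Y[s + i]? = w[i]?) ∧
      X[t + n]? ≠ Y[s + n]?}
    S.Finite ∧ S.ncard ≤ N * N := by
  intro S
  refine ncard_le_of_key S (fun w k => ∃ t s, t + n < X.length ∧ s + n < Y.length ∧
      (∀ i, i < n → X[t + i]? = w[i]?) ∧ (∀ i, i < n → Y[s + i]? = w[i]?) ∧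
      X[t + n]? ≠ Y[s + n]? ∧ s / b < N ∧ (t / b) * N + s / b = k) ?_ ?_
  · rintro w ⟨-, -, t, s, h1, h2, h3, h4, h5⟩
    have ht : t / b < N := by
      rw [Nat.div_lt_iff_lt_mul (by omega)]
      calc t < X.length := by omega
        _ ≤ b * N := hX
        _ = N * b := Nat.mul_comm _ _
    have hs : s / b < N := by
      rw [Nat.div_lt_iff_lt_mul (by omega)]
      calc s < Y.length := by omega
        _ ≤ b * N := hY
        _ = N * b := Nat.mul_comm _ _
    refine ⟨(t / b) * N + s / b, ?_, t, s, h1, h2, h3, h4, h5, hs, rfl⟩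
    nlinarith
  · rintro w1 ⟨l1, n1, -⟩ w2 ⟨l2, n2, -⟩ k ⟨t1, s1, a1, a2, a3, a4, a5, a6, a7⟩
      ⟨t2, s2, c1, c2, c3, c4, c5, c6, c7⟩
    have e1 : t1 / b = t2 / b := by
      have h1 : (t1 / b * N + s1 / b) / N = t1 / b := by
        rw [Nat.mul_comm, Nat.mul_add_div (lt_of_le_of_lt (Nat.zero_le _) a6), Nat.div_eq_of_lt a6]; simp
      have h2 : (t2 / b * N + s2 / b) / N = t2 / b := by
        rw [Nat.mul_comm, Nat.mul_add_div (lt_of_le_of_lt (Nat.zero_le _) c6), Nat.div_eq_of_lt c6]; simp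
      rw [← h1, ← h2, a7, c7]
    have e2 : s1 / b = s2 / b := by
      rw [e1] at a7; omega
    have m1 := Nat.div_add_mod t1 b
    have m2 := Nat.div_add_mod t2 b
    have m3 := Nat.div_add_mod s1 b
    have m4 := Nat.div_add_mod s2 b
    have r1 := Nat.mod_lt t1 (show 0 < b by omega)
    have r2 := Nat.mod_lt t2 (show 0 < b by omega)
    have r3 := Nat.mod_lt s1 (show 0 < b by omega)
    have r4 := Nat.mod_lt s2 (show 0 < b by omega)
    rw [e1] at m1; rw [e2] at m3
    rcases lt_trichotomy t1 t2 with h | h | h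
    · exact (typeB_sep (x := fun i => X[i]?) (y := fun i => Y[i]?) (w1 := fun i => w1[i]?)
        (w2 := fun i => w2[i]?) hn a3 c3 a4 c4 a5 n1 h (by omega) (by omega) (by omega)).elim
    · subst h
      exact list_eq_of_occ (x := fun i => X[i]?) l1 l2 a3 c3
    · exact (typeB_sep (x := fun i => X[i]?) (y := fun i => Y[i]?) (w1 := fun i => w2[i]?)
        (w2 := fun i => w1[i]?) hn c3 a3 c4 a4 c5 n2 h (by omega) (by omega) (by omega)).elim

/-- **Lemma U** for `n ≥ 6` (no finiteness of the alphabet needed). -/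
theorem lemmaU_six {A : Type*} (cc n : ℕ) (hn : 6 ≤ n) (X Y : List A)
    (hX : X.length ≤ cc * n) (hY : Y.length ≤ cc * n) :
    (PairSet n X Y).Finite ∧ (PairSet n X Y).ncard ≤ 11 * cc + 11 * cc + 11 * cc * (11 * cc) := by
  set b := n / 6 with hbdef
  have hb : 1 ≤ b := by omega
  have h6 : 6 * b ≤ n := by omega
  have h11 : n ≤ 11 * b := by omega
  have hX' : X.length ≤ b * (11 * cc) := hX.trans (by nlinarith)
  have hY' : Y.length ≤ b * (11 * cc) := hY.trans (by nlinarith)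
  obtain ⟨fA, cA⟩ := typeA_count n b (11 * cc) hb h6 X hX'
  obtain ⟨fA', cA'⟩ := typeA_count n b (11 * cc) hb h6 Y hY'
  obtain ⟨fB, cB⟩ := typeB_count n b (11 * cc) hb h6 X Y hX' hY'
  set SA : Set (List A) := {w | w.length = n ∧ ∃ q t, 1 ≤ q ∧ q ≤ 2 * b ∧
      PerSuf n b (fun i => w[i]?) q ∧ t + n < X.length ∧ (∀ i, i < n → X[t + i]? = w[i]?) ∧
      X[t + n]? ≠ w[n - q]?} with hSA
  set SA' : Set (List A) := {w | w.length = n ∧ ∃ q t, 1 ≤ q ∧ q ≤ 2 * b ∧
      PerSuf n b (fun i => w[i]?) q ∧ t + n < Y.length ∧ (∀ i, i < n → Y[t + i]? = w[i]?) ∧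
      Y[t + n]? ≠ w[n - q]?} with hSA'
  set SB : Set (List A) := {w | w.length = n ∧ (∀ q, 1 ≤ q → q ≤ 2 * b →
      ¬ PerSuf n b (fun i => w[i]?) q) ∧ ∃ t s, t + n < X.length ∧ s + n < Y.length ∧
      (∀ i, i < n → X[t + i]? = w[i]?) ∧ (∀ i, i < n → Y[s + i]? = w[i]?) ∧
      X[t + n]? ≠ Y[s + n]?} with hSB
  have hsub : PairSet n X Y ⊆ (SA ∪ SA') ∪ SB := by
    rintro w ⟨hl, a, b', hab, ha, hb'⟩
    obtain ⟨t, ht, hto, hta⟩ := getElem?_of_infix ha
    obtain ⟨s, hs, hso, hsb⟩ := getElem?_of_infix hb'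
    rw [hl] at ht hto hta hs hso hsb
    by_cases hA : ∃ q, 1 ≤ q ∧ q ≤ 2 * b ∧ PerSuf n b (fun i => w[i]?) q
    · obtain ⟨q, q1, q2, hq⟩ := hA
      left
      by_cases hbr : X[t + n]? = w[n - q]?
      · right
        refine ⟨hl, q, s, q1, q2, hq, hs, hso, ?_⟩
        rw [← hbr, hta, hsb]
        simpa using fun h => hab h.symm
      · left
        exact ⟨hl, q, t, q1, q2, hq, ht, hto, hbr⟩
    · right
      refine ⟨hl, ?_, t, s, ht, hs, hto, hso, ?_⟩
      · intro q q1 q2 hq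
        exact hA ⟨q, q1, q2, hq⟩
      · rw [hta, hsb]; simpa using hab
  have hfin : ((SA ∪ SA') ∪ SB).Finite := (fA.union fA').union fB
  refine ⟨hfin.subset hsub, ?_⟩
  calc (PairSet n X Y).ncard ≤ ((SA ∪ SA') ∪ SB).ncard := Set.ncard_le_ncard hsub hfin
    _ ≤ (SA ∪ SA').ncard + SB.ncard := Set.ncard_union_le _ _
    _ ≤ (SA.ncard + SA'.ncard) + SB.ncard := by
        gcongr; exact Set.ncard_union_le _ _
    _ ≤ 11 * cc + 11 * cc + 11 * cc * (11 * cc) := by
        gcongr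

/-- **Lemma U** (spec P1). -/
theorem lemmaU {A : Type*} [Finite A] (cc : ℕ) : ∃ C : ℕ, ∀ (n : ℕ) (X Y : List A),
    X.length ≤ cc * n → Y.length ≤ cc * n →
    (PairSet n X Y).Finite ∧ (PairSet n X Y).ncard ≤ C := by
  classical
  have := Fintype.ofFinite A
  refine ⟨(11 * cc + 11 * cc + 11 * cc * (11 * cc)) +
    ((Fintype.card A + 1) ^ 6), ?_⟩
  intro n X Y hX hY
  by_cases hn : 6 ≤ n
  · obtain ⟨h1, h2⟩ := lemmaU_six cc n hn X Y hX hY
    exact ⟨h1, h2.trans (by omega)⟩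
  · have hsub : PairSet n X Y ⊆ {w : List A | w.length = n} := fun w hw => hw.1
    have hfin : {w : List A | w.length = n}.Finite := List.finite_length_eq A n
    refine ⟨hfin.subset hsub, ?_⟩
    have hcard : {w : List A | w.length = n}.ncard = Fintype.card A ^ n := by
      rw [← Nat.card_coe_set_eq]
      have : Nat.card (List.Vector A n) = Fintype.card A ^ n := by
        rw [Nat.card_eq_fintype_card, card_vector]
      exact this
    have h1 : (PairSet n X Y).ncard ≤ Fintype.card A ^ n := hcard ▸ Set.ncard_le_ncard hsub hfin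
    have h2 : Fintype.card A ^ n ≤ (Fintype.card A + 1) ^ 6 :=
      (Nat.pow_le_pow_left (Nat.le_succ _) n).trans
        (Nat.pow_le_pow_right (by omega) (by omega))
    omega

end H2.MW
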